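import Pool.Agent.H454R3.Mono

set_option autoImplicit false

/-!
A perfect family of points all of which are good for countably many sets (the construction is the
one of `Pool.Agent.H454R3.Mono.mono`, without the hypothesis that the sets are a cover).
-/

namespace Pool.Agent.Y584.DO

open Pool.Agent.H454R3.Mono

variable {E : Type*} {o1 o2 : E}

theorem family (ho : o1 ≠ o2) (X : ℕ → Set (ℕ → E)) :
    ∃ w : (ℕ → Bool) → (ℕ → E), (∀ b b', b ≠ b' → w b ≠ w b') ∧
      (∀ b b' i, w b i = w b' i ∨ (w b i = o1 ∧ w b' i = o2) ∨ (w b i = o2 ∧ w b' i = o1)) ∧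
      ∀ b n, w b ∈ X n → ∃ k, DenseIn (X n) (w b) k := by
  classical
  -- the construction
  have hstep : ∀ (j : ℕ) (s : St E), ∃ s' : St E, Cyl s.y s.k s'.y ∧ s.k < s'.k ∧
      s'.S = insert s.k s.S ∧ ∀ a w, Cyl (sub o1 o2 s'.S a s'.y) s'.k w → w ∉ Bad (X j) :=
    fun j s => step o1 o2 _ (bad_nowhere (X j)) s
  choose nxt hn1 hn2 hn3 hn4 using hstep
  let s0 : St E := ⟨fun _ => o1, 0, ∅, by simp⟩
  let s : ℕ → St E := fun j => Nat.rec s0 (fun j s => nxt j s) j
  have hs : ∀ j, s (j + 1) = nxt j (s j) := fun j => rfl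
  have hk : StrictMono fun j => (s j).k := strictMono_nat_of_lt_succ fun j => by
    rw [hs]; exact hn2 j (s j)
  have hkj : ∀ j, j ≤ (s j).k := fun j => hk.id_le j
  have hy : ∀ j l, j ≤ l → Cyl (s j).y (s j).k (s l).y := by
    intro j l hjl
    induction l, hjl using Nat.le_induction with
    | base => exact Cyl.refl _ _
    | succ l hl ih =>
      rw [hs]
      exact ih.trans (hn1 l (s l)) (hk.monotone hl)
  let y : ℕ → E := fun i => (s (i + 1)).y i
  have hyj : ∀ j, Cyl (s j).y (s j).k y := by
    intro j i hi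
    show (s (i + 1)).y i = (s j).y i
    rcases le_total j (i + 1) with h | h
    · exact hy j (i + 1) h i hi
    · exact (hy (i + 1) j h i (by have := hkj (i + 1); omega)).symm
  let S : Set ℕ := Set.range fun j => (s j).k
  have hSj : ∀ j, ∀ i < (s j).k, (i ∈ S ↔ i ∈ (s j).S) := by
    intro j
    have h1 : (s j).S = {i | ∃ l < j, (s l).k = i} := by
      induction j with
      | zero => ext i; simp [s, s0]
      | succ j ih =>
        rw [hs, hn3, ih]
        ext i
        simp only [Set.mem_insert_iff, Set.mem_ofPred_eq]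
        constructor
        · rintro (rfl | ⟨l, hl, rfl⟩)
          · exact ⟨j, by omega, rfl⟩
          · exact ⟨l, by omega, rfl⟩
        · rintro ⟨l, hl, rfl⟩
          rcases Nat.lt_succ_iff_lt_or_eq.1 hl with h | rfl
          · exact Or.inr ⟨l, h, rfl⟩
          · exact Or.inl rfl
    intro i hi
    rw [h1]
    constructor
    · rintro ⟨l, rfl⟩
      refine ⟨l, ?_, rfl⟩
      by_contra hc
      push Not at hc
      have := hk.monotone hc
      simp only at this hi
      omega
    · rintro ⟨l, -, rfl⟩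
      exact ⟨l, rfl⟩
  let w : (ℕ → Bool) → (ℕ → E) := fun a => sub o1 o2 S a y
  have hw : ∀ a j, w a ∉ Bad (X j) := by
    intro a j
    refine hn4 j (s j) a (w a) ?_
    rw [← hs]
    intro i hi
    by_cases h : i ∈ S
    · have h5 : i ∈ (s (j + 1)).S := (hSj (j + 1) i hi).1 h
      have h6 := sub_mem o1 o2 (a := a) (y := (s (j + 1)).y) h5
      have h7 := sub_mem o1 o2 (a := a) (y := y) h
      exact h7.trans h6.symm
    · have h5 : i ∉ (s (j + 1)).S := fun h' => h ((hSj (j + 1) i hi).2 h')
      have h6 := sub_not_mem o1 o2 (a := a) (y := (s (j + 1)).y) h5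
      have h7 := sub_not_mem o1 o2 (a := a) (y := y) h
      exact h7.trans ((hyj (j + 1) i hi).trans h6.symm)
  -- assignments from sequences
  let A : (ℕ → Bool) → (ℕ → Bool) := fun b i => decide (∃ j, (s j).k = i ∧ b j = true)
  have hA : ∀ b j, A b (s j).k = b j := by
    intro b j
    show decide (∃ l, (s l).k = (s j).k ∧ b l = true) = b j
    cases hb : b j
    · rw [decide_eq_false_iff_not]
      rintro ⟨l, hl, hbl⟩
      rw [hk.injective hl, hb] at hbl
      exact absurd hbl (by simp)
    · rw [decide_eq_true_eq]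
      exact ⟨j, rfl, hb⟩
  have hinj : ∀ b b', b ≠ b' → w (A b) ≠ w (A b') := by
    intro b b' hne h
    apply hne
    funext j
    have h1 := congrFun h (s j).k
    have hmem : (s j).k ∈ S := ⟨j, rfl⟩
    have h2 : w (A b) (s j).k = bif b j then o1 else o2 := by
      show sub o1 o2 S (A b) y _ = _
      rw [sub_mem o1 o2 hmem, hA]
    have h3 : w (A b') (s j).k = bif b' j then o1 else o2 := by
      show sub o1 o2 S (A b') y _ = _
      rw [sub_mem o1 o2 hmem, hA]
    rw [h2, h3] at h1
    cases hb : b j <;> cases hb' : b' j <;> simp_all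
  refine ⟨fun b => w (A b), hinj, ?_, ?_⟩
  · intro b b' i
    by_cases h : i ∈ S
    · have h2 : w (A b) i = bif A b i then o1 else o2 := sub_mem o1 o2 h
      have h3 : w (A b') i = bif A b' i then o1 else o2 := sub_mem o1 o2 h
      simp only [h2, h3]
      cases A b i <;> cases A b' i <;> simp
    · left
      have h2 : w (A b) i = y i := sub_not_mem o1 o2 h
      have h3 : w (A b') i = y i := sub_not_mem o1 o2 h
      simp only [h2, h3]
  · intro b n hn
    have := hw (A b) n
    by_contra hcon
    push Not at hcon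
    exact this ⟨hn, fun k => hcon k⟩

/-- a symmetric relation with countable sections on a set of the size of the continuum has an
independent set of the size of the continuum -/
theorem independent {T : Type} (hT : Cardinal.mk T = Cardinal.continuum) (R : T → T → Prop)
    (hsymm : ∀ a b, R a b → R b a) (hR : ∀ a, {b | R a b}.Countable) (Z : Set T)
    (hZ : Z.Countable) : ∃ f : (ℕ → Bool) → T, Function.Injective f ∧ (∀ b, f b ∉ Z) ∧
      ∀ b b', b ≠ b' → ¬ R (f b) (f b') := by
  classical
  obtain ⟨M, hM⟩ := zorn_subset {M : Set T | Disjoint M Z ∧ ∀ a ∈ M, ∀ b ∈ M, a ≠ b → ¬ R a b} (by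
    intro c hc hchain
    refine ⟨⋃₀ c, ⟨?_, ?_⟩, fun s hs => Set.subset_sUnion_of_mem hs⟩
    · rw [Set.disjoint_sUnion_left]
      exact fun s hs => (hc hs).1
    · rintro a ⟨s, hs, has⟩ b ⟨t, ht, hbt⟩ hab
      rcases hchain.total hs ht with h | h
      · exact (hc ht).2 a (h has) b hbt hab
      · exact (hc hs).2 a has b (h hbt) hab)
  have hMp := hM.prop
  -- the neighbourhoods of `M` and `Z` cover everything
  have hcov : (Set.univ : Set T) ⊆ Z ∪ ⋃ a : M, ({(a : T)} ∪ {b | R a b}) := by
    intro b _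
    by_contra hb
    rw [Set.mem_union, not_or] at hb
    obtain ⟨hbZ, hbM⟩ := hb
    have hb1 : ∀ a ∈ M, a ≠ b ∧ ¬ R a b := by
      intro a ha
      constructor
      · rintro rfl
        exact hbM (Set.mem_iUnion.2 ⟨⟨a, ha⟩, Or.inl rfl⟩)
      · intro h
        exact hbM (Set.mem_iUnion.2 ⟨⟨a, ha⟩, Or.inr h⟩)
    have hins : insert b M ∈ {M : Set T | Disjoint M Z ∧ ∀ a ∈ M, ∀ b ∈ M, a ≠ b → ¬ R a b} := by
      refine ⟨?_, ?_⟩
      · rw [Set.disjoint_left]
        rintro a (rfl | ha) haZ
        · exact hbZ haZ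
        · exact Set.disjoint_left.1 hMp.1 ha haZ
      · rintro a (rfl | ha) b' (rfl | hb') hne
        · exact absurd rfl hne
        · exact fun h => (hb1 b' hb').2 (hsymm _ _ h)
        · exact (hb1 a ha).2
        · exact hMp.2 a ha b' hb' hne
    have h1 : insert b M ⊆ M := hM.le_of_ge hins (Set.subset_insert b M)
    exact (hb1 b (h1 (Set.mem_insert b M))).1 rfl
  have hcard : Cardinal.continuum ≤ Cardinal.mk M * Cardinal.aleph0 + Cardinal.aleph0 := by
    have h1 : Cardinal.continuum ≤ Cardinal.mk (Z ∪ ⋃ a : M, ({(a : T)} ∪ {b | R a b}) : Set T) := by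
      rw [← hT, ← Cardinal.mk_univ]
      exact Cardinal.mk_le_mk_of_subset hcov
    refine h1.trans ((Cardinal.mk_union_le _ _).trans ?_)
    rw [add_comm]
    refine add_le_add ?_ (Cardinal.mk_le_aleph0_iff.2 hZ.to_subtype)
    refine (Cardinal.mk_iUnion_le _).trans ?_
    gcongr
    apply ciSup_le'
    intro a
    have h2 : ({(a : T)} ∪ {b | R a b} : Set T).Countable :=
      (Set.countable_singleton _).union (hR a)
    exact Cardinal.mk_le_aleph0_iff.2 h2.to_subtype
  have hMc : Cardinal.continuum ≤ Cardinal.mk M := by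
    by_contra hlt
    rw [not_le] at hlt
    have h1 : Cardinal.mk M * Cardinal.aleph0 < Cardinal.continuum :=
      Cardinal.mul_lt_of_lt Cardinal.aleph0_le_continuum hlt Cardinal.aleph0_lt_continuum
    have h2 : Cardinal.mk M * Cardinal.aleph0 + Cardinal.aleph0 < Cardinal.continuum :=
      Cardinal.add_lt_of_lt Cardinal.aleph0_le_continuum h1 Cardinal.aleph0_lt_continuum
    exact absurd hcard (not_le.2 h2)
  have hbool : Cardinal.mk (ℕ → Bool) = Cardinal.continuum := by simp
  obtain ⟨g⟩ : Nonempty ((ℕ → Bool) ↪ M) := by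
    rw [← Cardinal.le_def, hbool]
    exact hMc
  refine ⟨fun b => g b, fun b b' h => g.injective (Subtype.ext h), fun b => ?_, fun b b' hne => ?_⟩
  · exact Set.disjoint_left.1 hMp.1 (g b).2
  · exact hMp.2 _ (g b).2 _ (g b').2 fun h => hne (g.injective (Subtype.ext h))

end Pool.Agent.Y584.DO
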